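import Pool.Agent.H75.L.W662.CB.Stmts
import Pool.Agent.H75.L.W428.CB.F0
import Pool.Agent.H75.L.W29.CB.D1

/-!
# One box, `A` a factor (adapted from W428.CB.F0, helper29)
-/

set_option autoImplicit false

open MeasureTheory Filter Topology Complex
open scoped InnerProductSpace ENNReal

namespace Pool.Agent.W29.CB.F0

open Pool.Agent.W662.CB Pool.Agent.W29.CB.D1
open Pool.Agent.W428.CB.F0 (norm_proj_le pu up norm_u_le kap_le)

theorem ident {X : Type} [NormedAddCommGroup X] [NormedSpace ℂ X] [CompleteSpace X] (g : ℂ → X)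
    (hg : Differentiable ℂ g) (h : ∀ t : ℝ, g t = 0) : ∀ z, g z = 0 := by
  have h1 : AnalyticOnNhd ℂ g Set.univ := fun z _ => hg.analyticAt z
  have h2 : Tendsto (fun n : ℕ => ((1 / ((n : ℝ) + 1) : ℝ) : ℂ)) atTop (𝓝[≠] 0) := by
    rw [tendsto_nhdsWithin_iff]
    constructor
    · have h3 : Tendsto (fun n : ℕ => (1 / ((n : ℝ) + 1) : ℝ)) atTop (𝓝 0) :=
        tendsto_one_div_add_atTop_nhds_zero_nat
      have h4 := (Complex.continuous_ofReal.tendsto 0).comp h3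
      rw [Complex.ofReal_zero] at h4
      exact h4
    · refine Filter.Eventually.of_forall fun n => ?_
      have h5 : (1 / ((n : ℝ) + 1) : ℝ) ≠ 0 := by positivity
      exact Complex.ofReal_ne_zero.2 h5
  have h3 : ∃ᶠ z in 𝓝[≠] (0 : ℂ), g z = 0 :=
    h2.frequently (Filter.Frequently.of_forall fun n => h _)
  have h4 := AnalyticOnNhd.eqOn_zero_of_preconnected_of_frequently_eq_zero h1 isPreconnected_univ
    (Set.mem_univ 0) h3
  exact fun z => h4 (Set.mem_univ z)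

theorem VE {H K : Type} [NormedAddCommGroup H] [InnerProductSpace ℂ H] [CompleteSpace H]
    [NormedAddCommGroup K] [InnerProductSpace ℂ K] [CompleteSpace K]
    {U : ℝ → H →L[ℂ] H} {κ : (H →L[ℂ] H) →⋆ₐ[ℂ] (K →L[ℂ] K)} {V : ℝ → K →L[ℂ] K}
    {J : H →L[ℂ] K} {E : ℂ → K →L[ℂ] K} {T δ : ℝ} (hbox : BoxP U κ V J E T δ) (t : ℝ) :
    V t * E 0 = E t * κ (U t) := by
  have hEE : ∀ z w : ℂ, E z * E w = E w * E z := by
    intro z w
    rw [← hbox.E_add, ← hbox.E_add, add_comm]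
  ext u
  have h1 := (hbox.compl u).mapL (V t)
  have h2 := (hbox.compl u).mapL (E t * κ (U t))
  have h3 : ∀ m : ℤ, V t (E (((m : ℝ) * T : ℝ) : ℂ)
      (J (ContinuousLinearMap.adjoint J (E ((-((m : ℝ) * T) : ℝ) : ℂ) u)))) =
      (E t * κ (U t)) (E (((m : ℝ) * T : ℝ) : ℂ)
      (J (ContinuousLinearMap.adjoint J (E ((-((m : ℝ) * T) : ℝ) : ℂ) u)))) := by
    intro m
    generalize ContinuousLinearMap.adjoint J (E ((-((m : ℝ) * T) : ℝ) : ℂ) u) = w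
    generalize (((m : ℝ) * T : ℝ) : ℂ) = z
    have e1 := congrArg (fun X : K →L[ℂ] K => X (J w)) (hbox.V_E t z)
    have e2 := congrArg (fun X : K →L[ℂ] K => X (J w)) (hbox.κ_E (U t) z)
    have e3 := congrArg (fun X : K →L[ℂ] K => X (J (U t w))) (hEE z t)
    change V t (E z (J w)) = E z (V t (J w)) at e1
    change κ (U t) (E z (J w)) = E z (κ (U t) (J w)) at e2
    change E z (E t (J (U t w))) = E t (E z (J (U t w))) at e3
    change V t (E z (J w)) = E t (κ (U t) (E z (J w)))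
    rw [e1, e2, hbox.κ_J, hbox.V_J, e3]
  have h4 : (fun m : ℤ => V t (E (((m : ℝ) * T : ℝ) : ℂ)
      (J (ContinuousLinearMap.adjoint J (E ((-((m : ℝ) * T) : ℝ) : ℂ) u))))) =
      fun m : ℤ => (E t * κ (U t)) (E (((m : ℝ) * T : ℝ) : ℂ)
      (J (ContinuousLinearMap.adjoint J (E ((-((m : ℝ) * T) : ℝ) : ℂ) u)))) := funext h3
  rw [h4] at h1
  have h5 := h1.unique h2
  change V t (E 0 u) = E t (κ (U t) (E 0 u)) at h5
  have e4 := congrArg (fun X : K →L[ℂ] K => X u) (hbox.κ_E (U t) 0)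
  change κ (U t) (E 0 u) = E 0 (κ (U t) u) at e4
  have e5 : E t * E 0 = E t := by rw [← hbox.E_add, add_zero]
  have e6 := congrArg (fun X : K →L[ℂ] K => X (κ (U t) u)) e5
  change E t (E 0 (κ (U t) u)) = E t (κ (U t) u) at e6
  change V t (E 0 u) = E t (κ (U t) u)
  rw [h5, e4, e6]

theorem Et {H K : Type} [NormedAddCommGroup H] [InnerProductSpace ℂ H] [CompleteSpace H]
    [NormedAddCommGroup K] [InnerProductSpace ℂ K] [CompleteSpace K]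
    {M : VonNeumannAlgebra H} {ξ : H}
    {U : ℝ → H →L[ℂ] H} {κ : (H →L[ℂ] H) →⋆ₐ[ℂ] (K →L[ℂ] K)} {V : ℝ → K →L[ℂ] K}
    {J : H →L[ℂ] K} {E : ℂ → K →L[ℂ] K} {T δ : ℝ} (hU : IsModular M ξ U)
    (hbox : BoxP U κ V J E T δ) (t : ℝ) : E t = V t * κ (U (-t)) * E 0 := by
  have h1 := VE hbox t
  have h2 : U t * U (-t) = 1 := by rw [← hU.add, add_neg_cancel, hU.zero]
  have h3 : E t * κ (U t) * κ (U (-t)) = E t := by rw [mul_assoc, ← map_mul, h2, map_one, mul_one]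
  rw [← h3, ← h1, mul_assoc, mul_assoc, ← hbox.κ_E]

def S_F0f : Prop := ∀ (H K : Type) [NormedAddCommGroup H] [InnerProductSpace ℂ H] [CompleteSpace H]
  [NormedAddCommGroup K] [InnerProductSpace ℂ K] [CompleteSpace K]
  (M N : VonNeumannAlgebra H) (ξ : H) (U : ℝ → H →L[ℂ] H), Std M N ξ U →
  ∀ (κ : (H →L[ℂ] H) →⋆ₐ[ℂ] (K →L[ℂ] K)) (V : ℝ → K →L[ℂ] K)
  (A B : VonNeumannAlgebra K), (∀ x : K →L[ℂ] K, x ∈ A → x ∈ B) →
  (∀ Z : K →L[ℂ] K, Z ∈ B → Aff M κ V Z) → (∀ Z : K →L[ℂ] K, Z ∈ A → Aff N κ V Z) →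
  (∀ Z : K →L[ℂ] K, Z ∈ A → (∀ S : K →L[ℂ] K, S ∈ A → S * Z = Z * S) → ∃ c : ℂ, Z = c • 1) →
  (∀ t : ℝ, V t * κ (U (-t)) ∈ A) →
  ∀ (J : H →L[ℂ] K) (E : ℂ → K →L[ℂ] K) (T δ : ℝ), BoxP U κ V J E T δ → E 0 ∈ A →
  ∀ (x : H →L[ℂ] H) (r : ℝ), x ∈ M → κ x ∈ B → 0 ≤ r →
  (∀ Y : K →L[ℂ] K, Y ∈ A → E 0 * Y * E 0 = Y → ‖Y‖ ≤ 1 →
    ‖(Y * κ x - κ x * Y) (J ξ)‖ ≤ r) →
  ∃ R : K →L[ℂ] K, R ∈ B ∧ (∀ S : K →L[ℂ] K, S ∈ A → S * R = R * S) ∧
    ‖κ x (J ξ) - R (J ξ)‖ ≤ 2 * (r + 2 * ‖x‖ * δ)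

theorem f0f (h1 : S_B1) (h2 : S_B2) (h5 : S_B5) (h6 : S_B6) (hd2 : S_D2)
    (hd3 : S_D3) : S_F0f := by
  have _ := h2
  intro H K _ _ _ _ _ _ M N ξ U hstd κ V A B hAB hBM hAN hfac hVA J E T δ hbox hEA x r hx hκx hr hY
  set p : K →L[ℂ] K := E 0 with hp
  have hpp : p * p = p := by rw [hp, ← hbox.E_add, add_zero]
  have hps : star p = p := by rw [hp, hbox.E_star, map_zero, neg_zero]
  set ζ : K := E (-I / 2) (J ξ) with hζ
  have hpζ : p ζ = ζ := by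
    have := hbox.E_add 0 (-I / 2)
    rw [zero_add] at this
    rw [hζ]
    conv_rhs => rw [this]
    rfl
  have hJn : ∀ v : H, ‖J v‖ = ‖v‖ := (h1 H K M ξ U κ V J E T δ hstd.modular hbox).2.2.2.2.1
  have hJξ : ‖J ξ‖ = 1 := by rw [hJn, hstd.unit]
  have hζJ : ‖ζ - J ξ‖ ≤ δ := by
    have e1 : ζ - J ξ = (E (-I / 2) - E 0) (J ξ) := by
      rw [_root_.sub_apply, hbox.E_J]
    rw [e1]
    calc ‖(E (-I / 2) - E 0) (J ξ)‖ ≤ ‖E (-I / 2) - E 0‖ * ‖J ξ‖ := ContinuousLinearMap.le_opNorm _ _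
      _ ≤ δ := by rw [hJξ, mul_one]; exact hbox.nE3
  have hp0 : p ≠ 0 := by
    intro h0
    have h1 : p (J ξ) = J ξ := hbox.E_J ξ
    rw [h0] at h1
    have h2 : J ξ = 0 := h1.symm
    rw [h2, norm_zero] at hJξ
    exact zero_ne_one hJξ
  have hpA : p ∈ A := hEA
  have hκp : κ x * p = p * κ x := hbox.κ_E x 0
  have hZB : κ x * p ∈ B := mul_mem hκx (hAB p hpA)
  have hZp : p * (κ x * p) * p = κ x * p := by
    rw [← mul_assoc, ← hκp, mul_assoc, mul_assoc, hpp, hpp]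
  have hκn : ‖κ x‖ ≤ ‖x‖ := kap_le κ x
  have hδ := hbox.δ_nonneg
  have hu : ∀ u : K →L[ℂ] K, u ∈ A → star u * u = p → u * star u = p →
      ‖(u * (κ x * p) - (κ x * p) * u) ζ‖ ≤ r + 2 * ‖x‖ * δ := by
    intro u huA hu1 hu2
    have hpu := pu p u hpp hps hu2
    have hup := up p u hpp hps hu1
    have hun := norm_u_le p u hpp hps hu1
    have e1 : (u * (κ x * p) - (κ x * p) * u) ζ = (u * κ x - κ x * u) ζ := by
      have e2 : (κ x * p) * u = κ x * u := by rw [mul_assoc, hpu]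
      rw [e2]
      change u (κ x (p ζ)) - κ x (u ζ) = u (κ x ζ) - κ x (u ζ)
      rw [hpζ]
    have e3 : (u * κ x - κ x * u) ζ = (u * κ x - κ x * u) (J ξ) +
        (u * κ x - κ x * u) (ζ - J ξ) := by
      rw [map_sub]; abel
    have e4 : ‖(u * κ x - κ x * u) (J ξ)‖ ≤ r :=
      hY u huA (by rw [hpu, hup]) hun
    have e5 : ‖u * κ x - κ x * u‖ ≤ 2 * ‖x‖ := by
      calc ‖u * κ x - κ x * u‖ ≤ ‖u * κ x‖ + ‖κ x * u‖ := norm_sub_le _ _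
        _ ≤ ‖u‖ * ‖κ x‖ + ‖κ x‖ * ‖u‖ := add_le_add (norm_mul_le _ _) (norm_mul_le _ _)
        _ ≤ 1 * ‖x‖ + ‖x‖ * 1 := by gcongr
        _ = 2 * ‖x‖ := by ring
    rw [e1, e3]
    calc ‖(u * κ x - κ x * u) (J ξ) + (u * κ x - κ x * u) (ζ - J ξ)‖
        ≤ ‖(u * κ x - κ x * u) (J ξ)‖ + ‖(u * κ x - κ x * u) (ζ - J ξ)‖ := norm_add_le _ _
      _ ≤ r + ‖u * κ x - κ x * u‖ * ‖ζ - J ξ‖ :=
        add_le_add e4 (ContinuousLinearMap.le_opNorm _ _)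
      _ ≤ r + 2 * ‖x‖ * δ := by gcongr
  obtain ⟨Z0, hZ0B, hZ0p, hZ0n, hZ0u⟩ := hd2 K A B hAB p hpA hpp hps ζ hpζ
    (fun Z hZ hZp => h5 H K M ξ U κ V J E T δ hstd.modular hbox Z (hBM Z hZ) hZp)
    (fun Z hZ hZp hZ0 => h6 H K M ξ U κ V J E T δ hstd.modular hstd.sep hbox Z (hBM Z hZ) hZp hZ0)
    (κ x * p) (r + 2 * ‖x‖ * δ) hZB hZp hu
  have hcomm := hd3 K A p hpA hpp hps Z0 hZ0p hZ0u
  obtain ⟨R, hRB, hRA, hRp⟩ := d1f K A B hAB hfac p hpA hpp hps hp0 Z0 hZ0B hZ0p hcomm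
  refine ⟨R, hRB, hRA, ?_⟩
  have e6 : (κ x * p - Z0) ζ = (κ x - R) ζ := by
    rw [← hRp]
    change κ x (p ζ) - R (p ζ) = κ x ζ - R ζ
    rw [hpζ]
  rw [e6] at hZ0n
  have hEtA : ∀ t : ℝ, E t ∈ A := by
    intro t
    rw [Et hstd.modular hbox t]
    exact mul_mem (hVA t) hpA
  have hREz : ∀ z : ℂ, R * E z - E z * R = 0 := by
    refine ident (fun z => R * E z - E z * R) ?_ ?_
    · exact (hbox.E_diff.const_mul R).sub (hbox.E_diff.mul_const R)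
    · intro t
      show R * E t - E t * R = 0
      rw [hRA _ (hEtA t), sub_self]
  have e8 : J ξ = E (I / 2) ζ := by
    have := hbox.E_add (I / 2) (-I / 2)
    have h0 : I / 2 + -I / 2 = (0 : ℂ) := by ring
    rw [h0] at this
    rw [hζ]
    change J ξ = (E (I / 2) * E (-I / 2)) (J ξ)
    rw [← this, hbox.E_J]
  have e9 : κ x (J ξ) - R (J ξ) = E (I / 2) ((κ x - R) ζ) := by
    rw [e8]
    change κ x (E (I / 2) ζ) - R (E (I / 2) ζ) = E (I / 2) (κ x ζ - R ζ)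
    rw [map_sub]
    congr 1
    · change (κ x * E (I / 2)) ζ = (E (I / 2) * κ x) ζ
      rw [hbox.κ_E]
    · change (R * E (I / 2)) ζ = (E (I / 2) * R) ζ
      rw [sub_eq_zero.1 (hREz (I / 2))]
  have e10 : ‖E (I / 2)‖ ≤ 2 := by
    have h7 : ‖E (I / 2)‖ ≤ ‖E (I / 2) - E 0‖ + ‖E 0‖ := by
      calc ‖E (I / 2)‖ = ‖(E (I / 2) - E 0) + E 0‖ := by rw [sub_add_cancel]
        _ ≤ _ := norm_add_le _ _
    have h8 := hbox.nE4
    have h9 := hbox.δ_le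
    have h10 : ‖E 0‖ ≤ 1 := norm_proj_le p hpp hps
    linarith
  rw [e9]
  calc ‖E (I / 2) ((κ x - R) ζ)‖
      ≤ ‖E (I / 2)‖ * ‖(κ x - R) ζ‖ := ContinuousLinearMap.le_opNorm _ _
    _ ≤ 2 * (r + 2 * ‖x‖ * δ) := by gcongr

end Pool.Agent.W29.CB.F0
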